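import Pool.Agent.W622.ETG.Stm

/-!
# ELG-NF: families of elementary type consist of forms `EF e` and have components
(port of `Pool.Agent.W505.ELT.NF`, the case `e = 0`, by helper505)
-/

set_option autoImplicit false
set_option linter.unusedSectionVars false

namespace Pool.Agent.W33.ELG
open Pool.Agent.W622.ETG Module

universe u

section
variable {V : Type u} [AddCommGroup V] [Module (ZMod 2) V] [Finite V] {e : V}

theorem sp_eq_bot' {ω : Frm V} (h : sp ω = ⊥) : ω = 0 := sp_eq_bot.mp h

theorem fspan_mem {ω x : Frm V} : x ∈ (Submodule.span (ZMod 2) {ω} : Fam V) ↔ x = 0 ∨ x = ω := by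
  rw [Submodule.mem_span_singleton]
  constructor
  · rintro ⟨a, rfl⟩
    rcases z01 a with rfl | rfl
    · left; exact zero_smul _ _
    · right; exact one_smul _ _
  · rintro (rfl | rfl)
    · exact ⟨0, zero_smul _ _⟩
    · exact ⟨1, one_smul _ _⟩

theorem self_mem_fspan (ω : Frm V) : ω ∈ (Submodule.span (ZMod 2) {ω} : Fam V) :=
  fspan_mem.mpr (Or.inr rfl)

theorem fspan_zero : (Submodule.span (ZMod 2) {(0 : Frm V)} : Fam V) = ⊥ := by
  ext x
  rw [fspan_mem, Submodule.mem_bot, or_self]

/-- a family spanned by one form -/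
theorem comps_span (ω : Frm V) : ∃ s, Comps e (Submodule.span (ZMod 2) {ω}) s := by
  rcases eq_or_ne ω 0 with rfl | hne
  · refine ⟨∅, sSupIndep_empty, ?_, fun X hX => absurd hX (Set.notMem_empty X)⟩
    rw [fspan_zero, iSup_emptyset]
  · refine ⟨{sp ω}, sSupIndep_singleton _, ?_, ?_⟩
    · rw [iSup_singleton]
      apply le_antisymm
      · intro η hη
        refine ⟨hη, fun a => ?_⟩
        rcases fspan_mem.mp hη with rfl | rfl
        · exact Submodule.zero_mem _
        · exact ⟨a, rfl⟩
      · exact res_le _ _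
    · intro X hX
      left
      refine ⟨ω, ⟨self_mem_fspan ω, hne, ?_⟩, hX⟩
      intro η hη _
      exact fspan_mem.mp hη

theorem comp_le_supp {A : Fam V} {s : Set (DSub V)} (h : Comps e A s) {X : DSub V} (hX : X ∈ s) :
    X ≤ supp A := by
  rcases h.2.2 X hX with ⟨ω, hω, rfl⟩ | ⟨p, h3, hp, hp0, hpe, hg⟩
  · exact sp_le_supp hω.1
  · intro g hgX
    -- a member `g'` of `X` outside `⟨p⟩`
    have h1 : ∃ g' ∈ X, g' ∉ Submodule.span (ZMod 2) {p} := by
      by_contra hc
      push Not at hc
      have h4 : finrank (ZMod 2) X ≤ finrank (ZMod 2) (Submodule.span (ZMod 2) {p}) :=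
        Submodule.finrank_mono hc
      have h5 : finrank (ZMod 2) (Submodule.span (ZMod 2) {p}) ≤ 1 := by
        rw [finrank_span_singleton hp0]
      omega
    obtain ⟨g', hg', hgp⟩ := h1
    rw [span_one_mem] at hgp
    push Not at hgp
    by_cases hgg : g ∈ Submodule.span (ZMod 2) {p}
    · rcases span_one_mem.mp hgg with rfl | rfl
      · exact Submodule.zero_mem _
      · apply sp_le_supp (hg g' hg')
        rw [sp_wd hp0 hgp.1 hgp.2]
        exact Submodule.subset_span (by simp)
    · rw [span_one_mem] at hgg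
      push Not at hgg
      apply sp_le_supp (hg g hgX)
      rw [sp_wd hp0 hgg.1 hgg.2]
      exact Submodule.subset_span (by simp)

theorem res_sup_of_disjoint {A B : Fam V} {X : DSub V} (h : Disjoint (supp A) (supp B))
    (hX : X ≤ supp A) : res (A ⊔ B) X = res A X := by
  apply le_antisymm
  · rintro η ⟨h1, h2⟩
    obtain ⟨α, hα, β, hβ, rfl⟩ := Submodule.mem_sup.mp h1
    have hβ0 : β = 0 := by
      apply LinearMap.ext
      intro a
      have h3 : β a ∈ supp B := sp_le_supp hβ ⟨a, rfl⟩
      have h4 : β a ∈ supp A := by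
        have : β a = (α + β) a + α a := by
          rw [LinearMap.add_apply, add_comm (α a) (β a), add_cancel']
        rw [this]
        exact Submodule.add_mem _ (hX (h2 a)) (sp_le_supp hα ⟨a, rfl⟩)
      have h5 : β a ∈ supp A ⊓ supp B := ⟨h4, h3⟩
      rw [h.eq_bot, Submodule.mem_bot] at h5
      exact h5
    subst hβ0
    rw [add_zero] at h2 ⊢
    exact ⟨hα, h2⟩
  · exact res_mono_left le_sup_left X

theorem indep_union {s t : Set (DSub V)} (hs : sSupIndep s) (ht : sSupIndep t) {X Y : DSub V}
    (hsX : ∀ Z ∈ s, Z ≤ X) (htY : ∀ Z ∈ t, Z ≤ Y) (hXY : Disjoint X Y) : sSupIndep (s ∪ t) := by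
  have key : ∀ {s t : Set (DSub V)}, sSupIndep s → ∀ {X Y : DSub V},
      (∀ Z ∈ s, Z ≤ X) → (∀ Z ∈ t, Z ≤ Y) → Disjoint X Y → ∀ Z ∈ s,
      Disjoint Z (sSup ((s ∪ t) \ {Z})) := by
    intro s t hs X Y hsX htY hXY Z hZ
    have h1 : sSup ((s ∪ t) \ {Z}) ≤ sSup (s \ {Z}) ⊔ Y := by
      apply sSup_le
      rintro W ⟨hW | hW, hWZ⟩
      · exact le_sup_of_le_left (le_sSup ⟨hW, hWZ⟩)
      · exact le_sup_of_le_right (htY W hW)
    have h2 : Disjoint Z (sSup (s \ {Z})) := hs hZ
    have h3 : Disjoint (Z ⊔ sSup (s \ {Z})) Y := by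
      refine hXY.mono_left (sup_le (hsX Z hZ) (sSup_le fun W hW => hsX W hW.1))
    exact (h2.disjoint_sup_right_of_disjoint_sup_left h3).mono_right h1
  intro Z hZ
  rcases hZ with hZ | hZ
  · exact key hs hsX htY hXY Z hZ
  · rw [Set.union_comm]
    exact key ht htY hsX hXY.symm Z hZ

theorem comps_prod {A B : Fam V} {s t : Set (DSub V)} (hs : Comps e A s) (ht : Comps e B t)
    (h : Disjoint (supp A) (supp B)) : Comps e (A ⊔ B) (s ∪ t) := by
  have key : ∀ {A B : Fam V} {s : Set (DSub V)}, Comps e A s → Disjoint (supp A) (supp B) →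
      ∀ X ∈ s, (∃ ω, Prim (A ⊔ B) ω ∧ X = sp ω) ∨ IsCone e (A ⊔ B) X := by
    intro A B s hs h X hX
    rcases hs.2.2 X hX with ⟨ω, ⟨h1, h2, h3⟩, rfl⟩ | ⟨p, h3, hp, hp0, hpe, hg⟩
    · left
      refine ⟨ω, ⟨Submodule.mem_sup_left h1, h2, ?_⟩, rfl⟩
      intro η hη hle
      have h4 : η ∈ res (A ⊔ B) (sp ω) := mem_res'.mpr ⟨hη, hle⟩
      rw [res_sup_of_disjoint h (sp_le_supp h1)] at h4
      exact h3 η h4.1 hle
    · right
      exact ⟨p, h3, hp, hp0, hpe, fun g hg' => Submodule.mem_sup_left (hg g hg')⟩
  refine ⟨indep_union hs.1 ht.1 (fun Z hZ => comp_le_supp hs hZ) (fun Z hZ => comp_le_supp ht hZ) h,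
    ?_, ?_⟩
  · apply le_antisymm
    · apply sup_le
      · calc A = ⨆ X ∈ s, res A X := hs.2.1
          _ ≤ _ := iSup₂_le fun X hX =>
            (res_mono_left le_sup_left X).trans
              (le_iSup₂_of_le X (Or.inl hX) le_rfl)
      · calc B = ⨆ X ∈ t, res B X := ht.2.1
          _ ≤ _ := iSup₂_le fun X hX =>
            (res_mono_left le_sup_right X).trans
              (le_iSup₂_of_le X (Or.inr hX) le_rfl)
    · exact iSup₂_le fun X _ => res_le _ _
  · rintro X (hX | hX)
    · exact key hs h X hX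
    · have := key ht h.symm X hX
      rwa [sup_comm] at this

theorem efam_sup {A B : Fam V} (hA : EFam e A) (hB : EFam e B) : EFam e (A ⊔ B) := by
  intro ω hω
  obtain ⟨α, hα, β, hβ, rfl⟩ := Submodule.mem_sup.mp hω
  exact (hA α hα).add (hB β hβ)

theorem supp_fspan (ω : Frm V) : supp (Submodule.span (ZMod 2) {ω} : Fam V) = sp ω := by
  apply le_antisymm
  · refine supp_le.mpr ?_
    intro η hη a
    rcases fspan_mem.mp hη with rfl | rfl
    · exact Submodule.zero_mem _
    · exact ⟨a, rfl⟩
  · exact sp_le_supp (self_mem_fspan ω)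

/-- `wd e p y = sqf y + sqf (p + y)` for `y e = 1` -/
theorem wd_eq_sqf_add {p y : Dl V} (hy : y e = 1) : wd e p y = sqf y + sqf (p + y) := by
  ext a b
  rw [wd_apply', LinearMap.add_apply, LinearMap.add_apply, sqf_apply', sqf_apply', hy,
    LinearMap.add_apply, LinearMap.add_apply]
  rcases z01 (p a) with h1 | h1 <;> rcases z01 (p b) with h2 | h2 <;>
    rcases z01 (y a) with h3 | h3 <;> rcases z01 (y b) with h4 | h4 <;>
    rw [h1, h2, h3, h4] <;> decide

/-- a line or zero -/
theorem exists_gen {Y : DSub V} (h2 : ¬ 2 ≤ finrank (ZMod 2) Y) :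
    ∃ y : Dl V, Y = Submodule.span (ZMod 2) {y} := by
  rcases Nat.lt_or_ge (finrank (ZMod 2) Y) 1 with h4 | h4
  · refine ⟨0, ?_⟩
    rw [Submodule.span_zero_singleton]
    exact Submodule.finrank_eq_zero.mp (by omega)
  · have h5 : finrank (ZMod 2) Y = 1 := by omega
    obtain ⟨v, hv⟩ := finrank_eq_one_iff'.mp h5
    refine ⟨v.1, ?_⟩
    apply le_antisymm
    · intro w hw
      obtain ⟨c, hc⟩ := hv.2 ⟨w, hw⟩
      rw [Submodule.mem_span_singleton]
      exact ⟨c, congrArg Subtype.val hc⟩
    · rw [Submodule.span_le, Set.singleton_subset_iff]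
      exact v.2

theorem map_wd_span (p y : Dl V) : Submodule.map (wd e p) (Submodule.span (ZMod 2) {y}) =
    Submodule.span (ZMod 2) {wd e p y} := by
  rw [Submodule.map_span, Set.image_singleton]

end

theorem t_NF : S_NF := by
  intro V _ _ _ e A hA
  induction hA with
  | zero =>
    refine ⟨?_, ∅, sSupIndep_empty, by rw [iSup_emptyset],
      fun X hX => absurd hX (Set.notMem_empty X)⟩
    intro ω hω
    rw [Submodule.mem_bot] at hω
    subst hω
    exact EF.zero
  | loc ω hω =>
    refine ⟨?_, comps_span ω⟩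
    intro η hη
    rcases fspan_mem.mp hη with rfl | rfl
    · exact EF.zero
    · exact hω
  | prod A B _ _ h ihA ihB =>
    obtain ⟨hA, s, hs⟩ := ihA
    obtain ⟨hB, t, ht⟩ := ihB
    exact ⟨efam_sup hA hB, s ∪ t, comps_prod hs ht h⟩
  | cone A p Y _ hY hp hpe ih =>
    obtain ⟨hA, -⟩ := ih
    have hmap : EFam e (Submodule.map (wd e p) Y) := by
      rintro _ ⟨g, _, rfl⟩
      exact wd_ef hpe g
    refine ⟨efam_sup hA hmap, ?_⟩
    have hp0 : p ≠ 0 := fun h0 => hp (h0 ▸ Y.zero_mem)
    by_cases h2 : 2 ≤ finrank (ZMod 2) Y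
    · set X : DSub V := Submodule.span (ZMod 2) {p} ⊔ Y with hX
      have hpX : p ∈ X := Submodule.mem_sup_left (Submodule.mem_span_singleton_self p)
      have hYX : Y ≤ X := le_sup_right
      refine ⟨{X}, sSupIndep_singleton _, ?_, ?_⟩
      · rw [iSup_singleton]
        refine le_antisymm ?_ (res_le _ _)
        apply sup_le
        · intro ω hω
          exact ⟨Submodule.mem_sup_left hω, fun a => hYX (hY (sp_le_supp hω ⟨a, rfl⟩))⟩
        · rintro _ ⟨g, hg, rfl⟩
          refine ⟨Submodule.mem_sup_right ⟨g, hg, rfl⟩, fun a => ?_⟩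
          rw [wd_apply]
          exact X.add_mem (X.add_mem (X.smul_mem _ (hYX hg)) (X.smul_mem _ hpX))
            (X.smul_mem _ hpX)
      · intro Z hZ
        rw [Set.mem_singleton_iff] at hZ
        subst hZ
        right
        refine ⟨p, ?_, hpX, hp0, hpe, ?_⟩
        · have h3 : Y < X := by
            refine lt_of_le_of_ne hYX ?_
            intro h
            exact hp (h ▸ hpX)
          have := Submodule.finrank_lt_finrank_of_lt h3
          omega
        · intro g hg
          obtain ⟨c, hc, y, hy, rfl⟩ := Submodule.mem_sup.mp hg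
          have h4 : wd e p (c + y) = wd e p y := by
            rw [map_add]
            rcases span_one_mem.mp hc with rfl | rfl
            · rw [map_zero, zero_add]
            · rw [wd_self hpe, zero_add]
          rw [h4]
          exact Submodule.mem_sup_right ⟨y, hy, rfl⟩
    · obtain ⟨y, rfl⟩ := exists_gen h2
      rw [map_wd_span]
      by_cases hA0 : A = ⊥
      · rw [hA0, bot_sup_eq]
        exact comps_span _
      · -- `A = {0, sqf y}`
        obtain ⟨ω0, hω0, hne⟩ := (Submodule.ne_bot_iff A).mp hA0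
        have hall : ∀ ω ∈ A, ω ≠ 0 → ω = sqf y ∧ y e = 1 := fun ω hω h0 =>
          (hA ω hω).eq_sqf ((sp_le_supp hω).trans hY) h0
        obtain ⟨h3, hye⟩ := hall ω0 hω0 hne
        have hAeq : A = Submodule.span (ZMod 2) {sqf y} := by
          ext ω
          rw [fspan_mem]
          constructor
          · intro hω
            by_cases h0 : ω = 0
            · exact Or.inl h0
            · exact Or.inr (hall ω hω h0).1
          · rintro (rfl | rfl)
            · exact Submodule.zero_mem _
            · rw [← h3]; exact hω0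
        have hy0 : y ≠ 0 := by
          rintro rfl
          rw [LinearMap.zero_apply] at hye
          exact absurd hye (by decide)
        have hpy : p + y ≠ 0 := fun h => hp (by
          rw [Pool.Agent.W622.ETC.add_eq_zero'.mp h]
          exact Submodule.mem_span_singleton_self y)
        have hpy2 : p + y ≠ y := fun h => hp0 (by simpa using h)
        have hsum : A ⊔ Submodule.span (ZMod 2) {wd e p y} =
            Submodule.span (ZMod 2) {sqf y} ⊔ Submodule.span (ZMod 2) {sqf (p + y)} := by
          rw [hAeq, wd_eq_sqf_add hye]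
          apply le_antisymm
          · refine sup_le le_sup_left ?_
            rw [Submodule.span_le, Set.singleton_subset_iff]
            exact Submodule.add_mem _ (Submodule.mem_sup_left (self_mem_fspan _))
              (Submodule.mem_sup_right (self_mem_fspan _))
          · refine sup_le le_sup_left ?_
            rw [Submodule.span_le, Set.singleton_subset_iff]
            have h4 : sqf (p + y) = sqf y + (sqf y + sqf (p + y)) :=
              (Pool.Agent.W622.ETC.add_cancel_left' (sqf y) (sqf (p + y))).symm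
            have h5 : sqf y + (sqf y + sqf (p + y)) ∈ (Submodule.span (ZMod 2) {sqf y} ⊔
                Submodule.span (ZMod 2) {sqf y + sqf (p + y)} : Fam V) :=
              Submodule.add_mem _ (Submodule.mem_sup_left (self_mem_fspan _))
                (Submodule.mem_sup_right (self_mem_fspan _))
            rw [← h4] at h5
            exact h5
        rw [hsum]
        obtain ⟨s, hs⟩ := comps_span (e := e) (sqf y)
        obtain ⟨t, ht⟩ := comps_span (e := e) (sqf (p + y))
        refine ⟨s ∪ t, comps_prod hs ht ?_⟩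
        rw [supp_fspan, supp_fspan, sp_sqf hy0, sp_sqf hpy, Submodule.disjoint_def]
        intro x hx hx'
        rcases span_one_mem.mp hx with h | h
        · exact h
        · rcases span_one_mem.mp hx' with h' | h'
          · exact h'
          · exact absurd (h'.symm.trans h) hpy2

end Pool.Agent.W33.ELG
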